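import Mathlib
import Pool.Agent.H98.OV2

/-! In the o-minimal theory of `(ℚ, 0, +, <, q·)` the cut to the right of `√2` over `M = ℚ` is
invariant with small cofinality on the right, but `p(dcl(M b))` is not cofinal in `p(dcl(U b))`. -/

namespace Pool.Agent.Results.MP_52937b_lc.NotCofinal

open FirstOrder Language Structure Pool.Agent.H98.OV Cardinal Filter

universe u

/-- `a ≤ b` for the order of the structure. -/
def Le {U : Type u} [L.Structure U] (a b : U) : Prop := Lt a b ∨ a = b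

/-- A point, or an open interval with end points in `U ∪ {±∞}`. -/
def Piece {U : Type u} [L.Structure U] (S : Set U) : Prop :=
  (∃ a, S = {a}) ∨ ∃ a b : Option U, S = {x | (∀ y ∈ a, Lt y x) ∧ ∀ y ∈ b, Lt x y}

/-- O-minimality of a structure. -/
def OMin (U : Type u) [L.Structure U] : Prop :=
  IsStrictTotalOrder U Lt ∧ ∀ D : Set U, (Set.univ : Set U).Definable₁ L D →
    ∃ F : Set (Set U), F.Finite ∧ (∀ S ∈ F, Piece S) ∧ D = ⋃₀ F

/-- `κ`-saturation. -/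
def Sat (κ : Cardinal.{u}) (U : Type u) [L.Structure U] : Prop :=
  ∀ A : Set U, #A < κ → ∀ 𝒟 : Set (Set U), (∀ D ∈ 𝒟, A.Definable₁ L D) →
    (∀ F ⊆ 𝒟, F.Finite → (⋂₀ F).Nonempty) → (⋂₀ 𝒟).Nonempty

/-- Definable closure. -/
def dcl {V : Type u} [L.Structure V] (A : Set V) : Set V := {c | A.Definable₁ L {c}}

section
variable {U V : Type u} [L.Structure U] [L.Structure V] (e : U ↪ₑ[L] V)

/-- `c` realises `p = tp(b/U)`. -/
def Realises (b c : V) : Prop :=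
  ∀ φ : L.Formula (U ⊕ Unit), φ.Realize (Sum.elim e fun _ => b) ↔ φ.Realize (Sum.elim e fun _ => c)

/-- `tp(b/U)` is `M`-invariant. -/
def Invariant (M : Set U) (b : V) : Prop :=
  ∀ σ : U ≃[L] U, (∀ m ∈ M, σ m = m) → ∀ φ : L.Formula (U ⊕ Unit),
    φ.Realize (Sum.elim e fun _ => b) ↔ φ.Realize (Sum.elim (e ∘ σ) fun _ => b)

/-- `R_p = {d ∈ U | p ⊢ x ≤ d}` has coinitiality `< κ`. -/
def SmallRight (κ : Cardinal.{u}) (b : V) : Prop :=
  ∃ S : Set U, #S < κ ∧ (∀ s ∈ S, Le b (e s)) ∧ ∀ d, Le b (e d) → ∃ s ∈ S, Le s d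

/-- `p(dcl(M b))` is cofinal in `p(dcl(U b))`. -/
def Cofinal (M : Set U) (b : V) : Prop :=
  ∀ y ∈ dcl (insert b (Set.range e)), Realises e b y →
    ∃ x ∈ dcl (insert b (e '' M)), Realises e b x ∧ Le y x

end

lemma Le_iff {G : Type u} [AddCommGroup G] [Module ℚ G] [LinearOrder G] [L.Structure G] [Cp G]
    (a b : G) : Le a b ↔ a ≤ b := by rw [Le, Lt_iff, le_iff_lt_or_eq]

theorem omin (U : Type u) [L.Structure U] [U ⊨ L.completeTheory ℚ] : OMin U := by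
  classical
  obtain ⟨_, _, _, _, _, _⟩ := conv (U := U)
  have hl : (Lt : U → U → Prop) = (· < ·) := by ext; exact Lt_iff _ _
  refine ⟨hl ▸ inferInstance, fun D hD => ?_⟩
  obtain ⟨P, hP, -, h⟩ := cells hD
  let Q : Set (Option U) := insert none (some '' P)
  have hQ : Q.Finite := (hP.image _).insert _
  let I : Option U → Option U → Set U := fun a b => {x | (∀ y ∈ a, Lt y x) ∧ ∀ y ∈ b, Lt x y}
  refine ⟨{S ∈ (fun a => {a}) '' P ∪ Set.image2 I Q Q | S ⊆ D},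
    ((hP.image _).union (hQ.image2 _ hQ)).subset fun _ h => h.1, ?_, ?_⟩
  · rintro _ ⟨⟨a, -, rfl⟩ | ⟨a, -, b, -, rfl⟩, -⟩
    exacts [.inl ⟨a, rfl⟩, .inr ⟨a, b, rfl⟩]
  refine Set.Subset.antisymm (fun x hx => ?_) (Set.sUnion_subset fun _ h => h.2)
  by_cases hxP : x ∈ P
  · exact ⟨{x}, ⟨.inl ⟨x, hxP, rfl⟩, by simpa⟩, rfl⟩
  obtain ⟨a, haQ, ha, ha'⟩ : ∃ a ∈ Q, (∀ y ∈ a, y < x) ∧ ∀ p ∈ P, p < x → ∃ y ∈ a, p ≤ y := by
    by_cases hn : {p ∈ P | p < x}.Nonempty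
    · obtain ⟨a, ha, hm⟩ := Set.exists_max_image _ id (hP.subset fun _ h => h.1) hn
      exact ⟨a, .inr ⟨a, ha.1, rfl⟩, by simpa using ha.2, fun p hp h => ⟨a, rfl, hm p ⟨hp, h⟩⟩⟩
    · exact ⟨none, .inl rfl, by simp, fun p hp h => absurd ⟨p, hp, h⟩ hn⟩
  obtain ⟨b, hbQ, hb, hb'⟩ : ∃ a ∈ Q, (∀ y ∈ a, x < y) ∧ ∀ p ∈ P, x < p → ∃ y ∈ a, y ≤ p := by
    by_cases hn : {p ∈ P | x < p}.Nonempty
    · obtain ⟨a, ha, hm⟩ := Set.exists_min_image _ id (hP.subset fun _ h => h.1) hn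
      exact ⟨a, .inr ⟨a, ha.1, rfl⟩, by simpa using ha.2, fun p hp h => ⟨a, rfl, hm p ⟨hp, h⟩⟩⟩
    · exact ⟨none, .inl rfl, by simp, fun p hp h => absurd ⟨p, hp, h⟩ hn⟩
  refine ⟨I a b, ⟨.inr ⟨a, haQ, b, hbQ, rfl⟩, fun z hz => (h x z fun p hp => ?_).1 hx⟩,
    by simpa only [I, hl, Set.mem_setOf_eq] using And.intro ha hb⟩
  simp only [I, hl, Set.mem_setOf_eq] at hz
  rcases lt_trichotomy x p with h1 | rfl | h1
  · obtain ⟨y, hy, h2⟩ := hb' p hp h1
    have := (hz.2 y hy).trans_le h2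
    simp [h1, this, h1.not_gt, this.not_gt]
  · exact absurd hp hxP
  · obtain ⟨y, hy, h2⟩ := ha' p hp h1
    have := h2.trans_lt (hz.1 y hy)
    simp [h1, this, h1.not_gt, this.not_gt]

lemma def_lt {G : Type u} [L.Structure G] {A : Set G} (a : A) :
    A.Definable₁ L {x | Lt (a : G) x} ∧ A.Definable₁ L {x | Lt x (a : G)} :=
  ⟨Set.definable_iff_exists_formula_sum.2
    ⟨Relations.formula₂ Rl.lt (.var (.inl a)) (.var (.inr 0)), by ext; simp [Lt]⟩,
  Set.definable_iff_exists_formula_sum.2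
    ⟨Relations.formula₂ Rl.lt (.var (.inr 0)) (.var (.inl a)), by ext; simp [Lt]⟩⟩

theorem result : (∀ (U : Type u) [L.Structure U], U ⊨ L.completeTheory ℚ → OMin U) ∧
    ∀ (κ : Cardinal.{u}) (U : Type u) [L.Structure U], ℵ₀ < κ → U ⊨ L.completeTheory ℚ →
      Sat κ U → ∃ (j : ℚ ↪ₑ[L] U) (V : Type u) (_ : L.Structure V) (e : U ↪ₑ[L] V) (b : V),
        #(Set.range j) < κ ∧ Invariant e (Set.range j) b ∧ SmallRight e κ b ∧
          ¬ Cofinal e (Set.range j) b := by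
  refine ⟨fun U _ _ => omin U, fun κ U _ hκ _ hsat => ?_⟩
  obtain ⟨_, _, _, _, _, _⟩ := conv (U := U)
  haveI := psm U
  obtain ⟨o, ho⟩ := exists_gt (0 : U)
  let j := elem (LinearMap.toSpanSingleton ℚ U o) fun q => by
    simp [smul_pos_iff_of_pos_right ho]
  have hj : ∀ q, j q = q • o := fun _ => rfl
  have hc : ∀ s : Set ℚ, #(j '' s) < κ := fun s =>
    (le_aleph0_iff_set_countable.2 ((Set.to_countable s).image _)).trans_lt hκ
  have hc' : #(Set.range j) < κ := Set.image_univ ▸ hc Set.univ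
  obtain ⟨ε, hε0, hε⟩ : ∃ ε : U, 0 < ε ∧ ∀ r : ℚ, 0 < r → ε < r • o := by
    obtain ⟨ε, hε⟩ := hsat _ hc' (insert {x | Lt (j 0) x} ((fun r => {x | Lt x (j r)}) '' Set.Ioi 0))
      (by
        rintro _ (rfl | ⟨r, -, rfl⟩)
        exacts [(def_lt (A := Set.range j) ⟨_, 0, rfl⟩).1,
          (def_lt (A := Set.range j) ⟨_, r, rfl⟩).2]) (by
        intro F hF hf
        suffices ∃ r : ℚ, 0 < r ∧ ∀ t, 0 < t → t < r → ∀ D ∈ F, t • o ∈ D by
          obtain ⟨r, hr, h⟩ := this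
          exact ⟨(r / 2) • o, h _ (half_pos hr) (half_lt_self hr)⟩
        induction F, hf using Set.Finite.induction_on with
        | empty => exact ⟨1, one_pos, by simp⟩
        | @insert D F _ _ ih =>
          obtain ⟨r, hr, h⟩ := ih ((Set.subset_insert _ _).trans hF)
          rcases hF (Set.mem_insert _ _) with rfl | ⟨r', hr', rfl⟩
          · refine ⟨r, hr, fun t h0 h1 => Set.forall_mem_insert.2 ⟨?_, h t h0 h1⟩⟩
            simpa [Lt_iff, hj] using smul_pos h0 ho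
          · refine ⟨min r r', lt_min hr hr', fun t h0 h1 => Set.forall_mem_insert.2
              ⟨?_, h t h0 (h1.trans_le (min_le_left _ _))⟩⟩
            simpa [Lt_iff, hj] using smul_lt_smul_of_pos_right (h1.trans_le (min_le_right _ _)) ho)
    refine ⟨ε, by simpa [Lt_iff, hj] using hε _ (.inl rfl), fun r hr => ?_⟩
    simpa [Lt_iff, hj] using hε _ (.inr ⟨r, hr, rfl⟩)
  have hq : ∀ n : ℕ, ∃ q : ℚ, √2 < q ∧ (q : ℝ) < √2 + 1 / (n + 1) := fun n =>
    exists_rat_btwn (by simp; positivity)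
  choose q hq1 hq2 using hq
  let V := Germ (hyperfilter ℕ : Filter ℕ) U
  letI : L.Structure V := std V
  haveI : Cp V := ⟨rfl⟩
  haveI := psm V
  let c : U →ₗ[ℚ] V := ⟨⟨fun x => (x : V), fun _ _ => rfl⟩, fun _ _ => rfl⟩
  have hcl : ∀ x y, c x < c y ↔ x < y := fun x y => Germ.const_lt_iff
  let e := elem c fun x => by rw [← hcl, map_zero]
  have he : ∀ x, e x = c x := fun _ => rfl
  let b : V := ((fun n => q n • o : ℕ → U) : V)
  let W : Set U := {d | ∀ r : ℚ, √2 < r → d < r • o}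
  have hb1 : ∀ d ∈ W, c d < b := fun d hd =>
    Germ.coe_lt.2 (Eventually.of_forall fun n => hd _ (hq1 n))
  have hb2 : ∀ r : ℚ, √2 < r → b < c (r • o) := fun r hr => by
    refine Germ.coe_lt.2 (Filter.Eventually.filter_mono Nat.hyperfilter_le_atTop ?_)
    have := (tendsto_const_nhds (x := √2)).add tendsto_one_div_add_atTop_nhds_zero_nat
    filter_upwards [this.eventually (gt_mem_nhds (by simpa using hr))] with n hn
    exact smul_lt_smul_of_pos_right (by exact_mod_cast (hq2 n).trans hn) ho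
  have cut : ∀ x : V, (∀ d ∈ W, c d < x) → (∀ r : ℚ, √2 < r → x < c (r • o)) → ∀ y (k : ℚ),
      0 < c y + k • x ↔ (k = 0 ∧ 0 < y) ∨ (0 < k ∧ (-k⁻¹) • y ∈ W) ∨ (k < 0 ∧ (-k⁻¹) • y ∉ W) := by
    intro x h1 h2 y k
    have : ∀ d, d ∉ W → x < c d := fun d hd => by
      simp only [W, Set.mem_setOf_eq, not_forall, not_lt] at hd
      obtain ⟨r, hr, h⟩ := hd
      exact (h2 r hr).trans_le (not_lt.1 fun h' => h.not_gt ((hcl _ _).1 h'))
    rw [pos_iff, ← map_smul, ← map_zero c, hcl]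
    by_cases hd : (-k⁻¹) • y ∈ W
    · simp only [hd, h1 _ hd, (h1 _ hd).not_gt, not_true]
    · simp only [hd, this _ hd, (this _ hd).not_gt, not_false_iff]
  let f : (U →ₗ[ℚ] U) → V → U × ℚ →ₗ[ℚ] V := fun σ x =>
    (c ∘ₗ σ).coprod (LinearMap.toSpanSingleton ℚ V x)
  have hf : ∀ (σ : U →ₗ[ℚ] U) x, Sum.elim (c ∘ σ) (fun _ => x) =
      f σ x ∘ Sum.elim (fun y => (y, 0)) fun _ : Unit => (0, 1) := by
    intro σ x; funext y; rcases y with y | y <;> simp [f]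
  have hf' : ∀ (σ τ : U →ₗ[ℚ] U) x y, (∀ z (k : ℚ), 0 < c (σ z) + k • x ↔ 0 < c (τ z) + k • y) →
      ∀ φ : L.Formula (U ⊕ Unit), φ.Realize (Sum.elim (c ∘ σ) fun _ => x) ↔
        φ.Realize (Sum.elim (c ∘ τ) fun _ => y) := by
    intro σ τ x y h φ
    rw [hf, hf]
    exact real_iff _ _ (fun z => h z.1 z.2) φ _
  refine ⟨j, V, inferInstance, e, b, hc', fun σ hσ φ => ?_,
    ⟨j '' {r | √2 < r}, hc _, ?_, fun d hd => ?_⟩, fun h => ?_⟩
  · let τ : U →ₗ[ℚ] U := ⟨⟨σ, fun x y => by simpa using σ.map_fun Fn.add ![x, y]⟩,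
      fun k x => by simpa using σ.map_fun (Fn.smul k) ![x]⟩
    have hτ : ∀ x y, τ x < τ y ↔ x < y := fun x y =>
      (rm_lt _).symm.trans ((σ.map_rel Rl.lt ![x, y]).trans (rm_lt _))
    have hW : ∀ d, τ d ∈ W ↔ d ∈ W := fun d => forall₂_congr fun r _ => by
      rw [← hτ d, show τ (r • o) = r • o from hσ _ ⟨r, rfl⟩]
    refine hf' LinearMap.id τ b b (fun z k => ?_) φ
    rw [cut b hb1 hb2, cut b hb1 hb2, ← map_smul τ, hW, LinearMap.id_apply, ← hτ 0, map_zero]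
  · rintro _ ⟨r, hr, rfl⟩
    exact (Le_iff _ _).2 (hb2 r hr).le
  · have : d ∉ W := fun h => (hb1 d h).not_ge ((Le_iff _ _).1 hd)
    simp only [W, Set.mem_setOf_eq, not_forall, not_lt] at this
    obtain ⟨r, hr, h⟩ := this
    exact ⟨_, ⟨r, hr, rfl⟩, (Le_iff _ _).2 h⟩
  have hε' : 0 < c ε := by rwa [← map_zero c, hcl]
  have hd : b + c ε ∈ dcl (insert b (Set.range e)) := Set.definable_iff_exists_formula_sum.2
    ⟨Term.equal (.var (.inr 0)) (ta (.var (.inl ⟨b, .inl rfl⟩)) (.var (.inl ⟨_, .inr ⟨ε, rfl⟩⟩))),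
      by ext; simp [he]⟩
  obtain ⟨x, hx, hr, hle⟩ := h _ hd fun φ => by
    refine hf' LinearMap.id LinearMap.id b (b + c ε) (fun z k => ?_) φ
    rw [cut b hb1 hb2, cut _ (fun d hd => (hb1 d hd).trans (lt_add_of_pos_right _ hε'))]
    intro r hr
    obtain ⟨t, h1, h2⟩ := exists_rat_btwn hr
    have := add_lt_add (hb2 t h1) ((hcl _ _).2 (hε (r - t) (by simpa using h2)))
    rwa [← map_add, ← add_smul, add_sub_cancel] at this
  obtain ⟨P, hPf, hP, hcell⟩ := cells hx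
  have hxP : x ∈ P := by
    by_contra hn
    obtain ⟨y, hy⟩ := step (hPf.insert x) (fun p : V => toLex (p, (0 : ℤ))) id
      (by simp [Prod.Lex.toLex_lt_toLex]) (toLex (x, 1))
    have h1 : x < y := by simpa [Prod.Lex.toLex_lt_toLex] using (hy x (.inl rfl)).2
    refine h1.ne' ((hcell x y fun p hp => ?_).1 rfl)
    have hne : p ≠ x := fun h => hn (h ▸ hp)
    simpa [Prod.Lex.toLex_lt_toLex, hne] using hy p (.inr hp)
  obtain ⟨k, z, hz, rfl⟩ := Submodule.mem_span_insert.1 (hP hxP)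
  obtain ⟨m, rfl⟩ : z ∈ LinearMap.range (c ∘ₗ LinearMap.toSpanSingleton ℚ U o) :=
    Submodule.span_le.2 (by rintro _ ⟨_, ⟨r, rfl⟩, rfl⟩; exact ⟨r, rfl⟩) hz
  have hW : ∀ r : ℚ, r • o ∈ W ↔ r < √2 := fun r =>
    ⟨fun h => lt_of_le_of_ne (not_lt.1 fun h' => (h r h').false) (irrational_sqrt_two.ne_rat r).symm,
      fun h t ht => smul_lt_smul_of_pos_right (by exact_mod_cast h.trans ht) ho⟩
  have pos : ∀ s k : ℚ, 0 < c (s • o) + k • b ↔ 0 < (s : ℝ) + k • √2 := fun s k => by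
    rw [cut b hb1 hb2, pos_iff, smul_smul, hW, smul_pos_iff_of_pos_right ho, not_lt,
      le_iff_lt_or_eq]
    have := irrational_sqrt_two.ne_rat (-k⁻¹ * s)
    simp only [this, or_false]
    simp [Rat.smul_def]
  have hX : √2 = m + k * √2 := eq_of_forall_rat_lt_iff_lt fun t => by
    have h1 := hr (Relations.formula₂ Rl.lt (.var (.inl (t • o))) (.var (.inr ())))
    have h2 := pos (-t) 1
    have h3 := pos (m - t) k
    simp only [Formula.realize_rel₂, Term.realize_var, Sum.elim_inl, Sum.elim_inr, rm_lt, he,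
      Matrix.cons_val_zero, Matrix.cons_val_one] at h1
    rw [neg_smul, map_neg, one_smul, neg_add_eq_sub, sub_pos] at h2
    rw [sub_smul, map_sub, sub_add_eq_add_sub, sub_pos, add_comm] at h3
    have := h2.symm.trans (h1.trans h3)
    simp only [Rat.cast_neg, one_smul, Rat.cast_sub, Rat.smul_def] at this
    constructor <;> intro h
    · linarith [this.1 (by linarith)]
    · linarith [this.2 (by linarith)]
  have hk : k = 1 := by
    by_contra hk
    refine irrational_sqrt_two.ne_rat (m / (1 - k)) ?_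
    have : (1 : ℝ) - k ≠ 0 := by exact_mod_cast sub_ne_zero.2 (Ne.symm hk)
    push_cast
    field_simp
    linarith
  have hm : m = 0 := by simpa [hk] using hX
  rw [Le_iff, hk, hm] at hle
  exact hε'.not_ge (by simpa using hle)

end Pool.Agent.Results.MP_52937b_lc.NotCofinal
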